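import Pool.Agent.V11293.EXT.Ends

namespace Pool.Agent.V11293.EXT

open Filter Finset

/-- `f` changes along translation by `t` exactly at the two points `a` (up) and `w` (down). -/
def J (f : ℂ → ℤ) (t a w : ℂ) : Prop :=
  ∀ z, f z - f (z - t) = (if z = a then 1 else 0) - (if z = w then 1 else 0)

theorem J.tele {f : ℂ → ℤ} {t a w : ℂ} (h : J f t a w) (n : ℕ) (z : ℂ) :
    f z - f (z - n * t) = ∑ k ∈ range n,
      ((if z - k * t = a then (1 : ℤ) else 0) - (if z - k * t = w then 1 else 0)) := by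
  induction n with
  | zero => simp
  | succ n ih =>
    rw [sum_range_succ, ← ih, ← h (z - n * t)]
    have : z - ((n + 1 : ℕ) : ℂ) * t = z - n * t - t := by push_cast; ring
    rw [this]
    ring

theorem J.noreturn {f : ℂ → ℤ} {t a w : ℂ} (h : J f t a w) (hB : ¬ Bal f t) (k : ℕ) :
    w - k * t ≠ a := by
  intro hk
  apply hB
  refine ⟨fun z => f z - ∑ i ∈ range k, (if z = w - ((i + 1 : ℕ) : ℂ) * t then (1 : ℤ) else 0), ?_, ?_⟩
  · intro z
    have h1 := h (z + t)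
    rw [add_sub_cancel_right] at h1
    have h2 : ∑ i ∈ range k, (if z + t = w - ((i + 1 : ℕ) : ℂ) * t then (1 : ℤ) else 0)
        - ∑ i ∈ range k, (if z = w - ((i + 1 : ℕ) : ℂ) * t then (1 : ℤ) else 0)
        = (if z + t = w - (k : ℂ) * t then (1 : ℤ) else 0) - (if z + t = w then 1 else 0) := by
      rw [← sum_sub_distrib]
      have h3 : ∀ i ∈ range k, ((if z + t = w - ((i + 1 : ℕ) : ℂ) * t then (1 : ℤ) else 0)
          - (if z = w - ((i + 1 : ℕ) : ℂ) * t then (1 : ℤ) else 0))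
          = (fun i : ℕ => (if z + t = w - (i : ℂ) * t then (1 : ℤ) else 0)) (i + 1)
          - (fun i : ℕ => (if z + t = w - (i : ℂ) * t then (1 : ℤ) else 0)) i := by
        intro i _
        have : (z = w - ((i + 1 : ℕ) : ℂ) * t) ↔ (z + t = w - (i : ℂ) * t) := by
          constructor
          · intro e; rw [e]; push_cast; ring
          · intro e
            have : z = w - (i : ℂ) * t - t := by rw [← e]; ring
            rw [this]; push_cast; ring
        simp only [this]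
      rw [sum_congr rfl h3]
      refine (sum_range_sub (fun i : ℕ => (if z + t = w - (i : ℂ) * t then (1 : ℤ) else 0)) k).trans ?_
      simp
    rw [hk] at h2
    linarith
  · refine (((Set.finite_lt_nat k).image (fun i : ℕ => w - ((i + 1 : ℕ) : ℂ) * t))).subset ?_
    intro z hz
    simp only [Set.mem_setOf_eq] at hz
    have h1 : ∑ i ∈ range k, (if z = w - ((i + 1 : ℕ) : ℂ) * t then (1 : ℤ) else 0) ≠ 0 := by
      intro h0; apply hz; rw [h0]; ring
    obtain ⟨i, hi, hi2⟩ := exists_ne_zero_of_sum_ne_zero h1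
    refine ⟨i, mem_range.1 hi, ?_⟩
    by_contra h3
    exact hi2 (if_neg fun h4 => h3 h4.symm)

theorem J.down {f : ℂ → ℤ} {t a w : ℂ} (h : J f t a w) (ht : t ≠ 0) (hB : ¬ Bal f t) {n : ℕ}
    (hn : 0 < n) : f w - f (w - n * t) = -1 := by
  rw [h.tele]
  have h1 : ∀ k ∈ range n, ((if w - k * t = a then (1 : ℤ) else 0)
      - (if w - k * t = w then 1 else 0)) = if k = 0 then -1 else 0 := by
    intro k _
    rw [if_neg (h.noreturn hB k)]
    by_cases hk : k = 0
    · subst hk; simp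
    · rw [if_neg hk, if_neg]
      · simp
      · intro e
        have : (k : ℂ) * t = 0 := by linear_combination -e
        rcases mul_eq_zero.1 this with h2 | h2
        · exact hk (by exact_mod_cast h2)
        · exact ht h2
  rw [sum_congr rfl h1, sum_ite_eq' (range n) 0]
  simp [hn]

theorem J.exists_down {f : ℂ → ℤ} {t a w z : ℂ} (h : J f t a w) {n : ℕ}
    (hz : f z - f (z - n * t) < 0) : ∃ k : ℕ, z - k * t = w := by
  by_contra hcon
  push Not at hcon
  rw [h.tele] at hz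
  have : 0 ≤ ∑ k ∈ range n,
      ((if z - k * t = a then (1 : ℤ) else 0) - (if z - k * t = w then 1 else 0)) := by
    refine sum_nonneg fun k _ => ?_
    rw [if_neg (hcon k)]
    split_ifs <;> simp
  linarith

theorem J.key {f : ℂ → ℤ} {t₁ t₂ a₁ a₂ w₁ w₂ : ℂ} (h1 : J f t₁ a₁ w₁) (h2 : J f t₂ a₂ w₂)
    (NB : ∀ τ, τ ≠ 0 → ¬ Bal f τ) (ht1 : t₁ ≠ 0) (ht2 : t₂ ≠ 0) {m n : ℕ} (hm : 0 < m)
    (hn : 0 < n) (hmn : (m : ℂ) * t₁ = n * t₂) : w₁ = w₂ := by
  have e1 := h1.down ht1 (NB _ ht1) hm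
  have e2 := h2.down ht2 (NB _ ht2) hn
  rw [hmn] at e1
  rw [← hmn] at e2
  obtain ⟨k, hk⟩ := h1.exists_down (by rw [e2]; norm_num : f w₂ - f (w₂ - m * t₁) < 0)
  obtain ⟨l, hl⟩ := h2.exists_down (by rw [e1]; norm_num : f w₁ - f (w₁ - n * t₂) < 0)
  have h3 : (k : ℂ) * t₁ + l * t₂ = 0 := by linear_combination -hk - hl
  have h4 : ((n * k + l * m : ℕ) : ℂ) * t₁ = 0 := by
    push_cast
    linear_combination (n : ℂ) * h3 + (l : ℂ) * hmn
  rcases mul_eq_zero.1 h4 with h5 | h5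
  · have h6 : n * k + l * m = 0 := by exact_mod_cast h5
    have h7 : n * k = 0 := by omega
    have h8 : k = 0 := by
      rcases Nat.mul_eq_zero.1 h7 with h | h
      · omega
      · exact h
    subst h8
    simpa using hk.symm
  · exact absurd h5 ht1

/-- Three jump pairs with pairwise commensurable translations: two of the base points agree. -/
theorem J.three {f : ℂ → ℤ} {t₁ t₂ t₃ a₁ a₂ a₃ w₁ w₂ w₃ : ℂ}
    (h1 : J f t₁ a₁ w₁) (h2 : J f t₂ a₂ w₂) (h3 : J f t₃ a₃ w₃)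
    (NB : ∀ τ, τ ≠ 0 → ¬ Bal f τ) (ht1 : t₁ ≠ 0) (ht2 : t₂ ≠ 0) (ht3 : t₃ ≠ 0)
    {m n m' n' : ℤ} (hm : m ≠ 0) (h12 : (m : ℂ) * t₂ = n * t₁)
    (hm' : m' ≠ 0) (h23 : (m' : ℂ) * t₃ = n' * t₂) : w₁ = w₂ ∨ w₂ = w₃ ∨ w₁ = w₃ := by
  have hn : n ≠ 0 := by
    rintro rfl
    have : (m : ℂ) * t₂ = 0 := by rw [h12]; simp
    rcases mul_eq_zero.1 this with h | h
    · exact hm (by exact_mod_cast h)
    · exact ht2 h
  have hn' : n' ≠ 0 := by
    rintro rfl
    have : (m' : ℂ) * t₃ = 0 := by rw [h23]; simp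
    rcases mul_eq_zero.1 this with h | h
    · exact hm' (by exact_mod_cast h)
    · exact ht3 h
  -- general fact
  have gen : ∀ {s₁ s₂ b₁ b₂ v₁ v₂ : ℂ}, J f s₁ b₁ v₁ → J f s₂ b₂ v₂ → s₁ ≠ 0 → s₂ ≠ 0 →
      ∀ {p q : ℤ}, p ≠ 0 → q ≠ 0 → (p : ℂ) * s₂ = q * s₁ → 0 < p * q → v₁ = v₂ := by
    intro s₁ s₂ b₁ b₂ v₁ v₂ j1 j2 hs1 hs2 p q hp hq hpq hpos
    have h4 : (q.natAbs : ℂ) * s₁ = p.natAbs * s₂ := by
      rcases pos_and_pos_or_neg_and_neg_of_mul_pos hpos with ⟨hp0, hq0⟩ | ⟨hp0, hq0⟩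
      · have e1 : (q.natAbs : ℤ) = q := Int.natAbs_of_nonneg hq0.le
        have e2 : (p.natAbs : ℤ) = p := Int.natAbs_of_nonneg hp0.le
        have e3 : (q.natAbs : ℂ) = q := by
          rw [← Int.cast_natCast (R := ℂ) q.natAbs, e1]
        have e4 : (p.natAbs : ℂ) = p := by
          rw [← Int.cast_natCast (R := ℂ) p.natAbs, e2]
        rw [e3, e4, hpq]
      · have e1 : (q.natAbs : ℤ) = -q := Int.ofNat_natAbs_of_nonpos hq0.le
        have e2 : (p.natAbs : ℤ) = -p := Int.ofNat_natAbs_of_nonpos hp0.le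
        have e3 : (q.natAbs : ℂ) = -q := by
          rw [← Int.cast_natCast (R := ℂ) q.natAbs, e1, Int.cast_neg]
        have e4 : (p.natAbs : ℂ) = -p := by
          rw [← Int.cast_natCast (R := ℂ) p.natAbs, e2, Int.cast_neg]
        rw [e3, e4]
        linear_combination hpq
    exact j1.key j2 NB hs1 hs2 (Int.natAbs_pos.2 hq) (Int.natAbs_pos.2 hp) h4
  by_cases c1 : 0 < m * n
  · left; exact gen h1 h2 ht1 ht2 hm hn h12 c1
  by_cases c2 : 0 < m' * n'
  · right; left; exact gen h2 h3 ht2 ht3 hm' hn' h23 c2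
  right; right
  have d1 : m * n < 0 := lt_of_le_of_ne (not_lt.1 c1) (mul_ne_zero hm hn)
  have d2 : m' * n' < 0 := lt_of_le_of_ne (not_lt.1 c2) (mul_ne_zero hm' hn')
  refine gen h1 h3 ht1 ht3 (p := m * m') (q := n * n') (mul_ne_zero hm hm') (mul_ne_zero hn hn')
    ?_ ?_
  · push_cast
    linear_combination (m : ℂ) * h23 + (n' : ℂ) * h12
  · have := mul_pos_of_neg_of_neg d1 d2
    calc (0 : ℤ) < m * n * (m' * n') := this
      _ = m * m' * (n * n') := by ring

end Pool.Agent.V11293.EXT
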