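import Pool.Agent.V11293.EXT.Moments
import Pool.Agent.V11293.EXT.Jump

namespace Pool.Agent.V11293.EXT

open Finset ComplexConjugate Filter

noncomputable def PPu (u : ℂ → ℤ) : ℂ :=
  PP (mom u fun _ => 1) (mom u fun z => z) (mom u fun z => conj z) (mom u fun z => z ^ 2)
      (mom u fun z => z * conj z) (mom u fun z => z ^ 2 * conj z)

/-- `h + 1_X` -/
noncomputable def pl (h : ℂ → ℤ) (X : Finset ℂ) : ℂ → ℤ := fun z => h z + if z ∈ X then 1 else 0

theorem mom_pl {h : ℂ → ℤ} {S : Finset ℂ} (hS : ∀ z, h z ≠ 0 → z ∈ S) (X : Finset ℂ)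
    (φ : ℂ → ℂ) : mom (pl h X) φ = mom h φ + ∑ x ∈ X, φ x := by
  have h1 : ∀ z, pl h X z ≠ 0 → z ∈ S ∪ X := by
    intro z hz
    rw [mem_union]
    by_contra hcon
    push Not at hcon
    apply hz
    unfold pl
    rw [if_neg hcon.2]
    by_contra h2
    exact hcon.1 (hS z (by simpa using h2))
  have h2 : ∀ z, h z ≠ 0 → z ∈ S ∪ X := fun z hz => mem_union_left _ (hS z hz)
  rw [mom_eq h1, mom_eq h2]
  have h3 : ∑ x ∈ X, φ x = ∑ z ∈ S ∪ X, if z ∈ X then φ z else 0 := by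
    rw [sum_ite_mem]
    congr 1
    rw [inter_eq_right.2 subset_union_right]
  rw [h3, ← sum_add_distrib]
  refine sum_congr rfl fun z _ => ?_
  unfold pl
  split_ifs
  · push_cast; ring
  · push_cast; ring

theorem tri {h : ℂ → ℤ} {S : Finset ℂ} (hS : ∀ z, h z ≠ 0 → z ∈ S) {x y z : ℂ}
    (hxy : x ≠ y) (hxz : x ≠ z) (hyz : y ≠ z)
    (hP : ∀ X : Finset ℂ, X ⊆ {x, y, z} → PPu (pl h X) = 0) : Cls x y z := by
  have e0 := hP ∅ (by simp)
  have e1 := hP {x} (by simp)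
  have e2 := hP {y} (by simp)
  have e3 := hP {z} (by simp)
  have e12 := hP {x, y} (by intro w; simp; tauto)
  have e13 := hP {x, z} (by intro w; simp; tauto)
  have e23 := hP {y, z} (by intro w; simp; tauto)
  have e123 := hP {x, y, z} (by simp)
  unfold PPu PP at e0 e1 e2 e3 e12 e13 e23 e123
  simp only [mom_pl hS] at e0 e1 e2 e3 e12 e13 e23 e123
  simp only [sum_empty, sum_singleton, sum_pair hxy, sum_pair hxz, sum_pair hyz] at e0 e1 e2 e3 e12 e13 e23 e123
  have hx : x ∉ ({y, z} : Finset ℂ) := by simp [hxy, hxz]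
  simp only [sum_insert hx, sum_pair hyz] at e123
  apply triple
  linear_combination e123 - e12 - e13 - e23 + e1 + e2 + e3 - e0

theorem F_inv {f F : ℂ → ℤ} {τ : ℂ} (hτ : τ ≠ 0) (hF : ∀ z, F (z + τ) = F z)
    (hD : {z | f z ≠ F z}.Finite) {ρ t : ℂ} (hρ : ρ ≠ 0)
    (hA : {z | f (ρ * z + t) ≠ f z}.Finite) : ∀ z, F (ρ * z + t) = F z := by
  have hE : {z | F (ρ * z + t) ≠ F z}.Finite := by
    have hsub : {z | F (ρ * z + t) ≠ F z} ⊆
        {z | f (ρ * z + t) ≠ f z} ∪ ({z | f z ≠ F z} ∪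
          (fun v => ρ⁻¹ * (v - t)) '' {z | f z ≠ F z}) := by
      intro z hz
      by_contra hcon
      simp only [Set.mem_union, not_or] at hcon
      obtain ⟨h1, h2, h3⟩ := hcon
      simp only [Set.mem_setOf_eq, not_not] at h1 h2
      apply hz
      have h4 : f (ρ * z + t) = F (ρ * z + t) := by
        by_contra h5
        apply h3
        exact ⟨ρ * z + t, h5, by field_simp; ring⟩
      rw [← h4, h1, h2]
    exact (hA.union (hD.union (hD.image _))).subset hsub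
  have hFn : ∀ (n : ℕ) z, F (z + n * τ) = F z := by
    intro n z
    induction n with
    | zero => simp
    | succ n ih =>
      rw [← ih, ← hF (z + n * τ)]
      congr 1; push_cast; ring
  intro z
  have hτ' : ρ⁻¹ * τ ≠ 0 := mul_ne_zero (inv_ne_zero hρ) hτ
  obtain ⟨n, hn⟩ := (ev hE hτ z).exists
  obtain ⟨m, hm1, hm2⟩ := ((ev hE hτ' z).and (ev hE hτ' (z + n * τ))).exists
  simp only [Set.mem_setOf_eq, not_not] at hn hm1 hm2
  have k1 : ∀ v : ℂ, ρ * (v + m * (ρ⁻¹ * τ)) + t = (ρ * v + t) + m * τ := by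
    intro v; field_simp; ring
  rw [k1, hFn] at hm1 hm2
  rw [hm1, ← hFn n z, ← hn, hm2, ← hFn n (z + m * (ρ⁻¹ * τ))]
  congr 1; ring

/-- The standing hypothesis. -/
def Hyp (f : ℂ → ℤ) (W : Finset ℂ) : Prop :=
  ∀ X : Finset ℂ, X ⊆ W → ∃ ρ t : ℂ, ‖ρ‖ = 1 ∧ ¬ (ρ = 1 ∧ t = 0) ∧
    ∀ z, pl f X (ρ * z + t) = pl f X z

theorem alm_of_inv {f : ℂ → ℤ} {X : Finset ℂ} {ρ t : ℂ} (hρ : ρ ≠ 0)
    (h : ∀ z, pl f X (ρ * z + t) = pl f X z) : {z | f (ρ * z + t) ≠ f z}.Finite := by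
  have hsub : {z | f (ρ * z + t) ≠ f z} ⊆ (X : Set ℂ) ∪ (fun v => ρ⁻¹ * (v - t)) '' (X : Set ℂ) := by
    intro z hz
    by_contra hcon
    simp only [Set.mem_union, not_or] at hcon
    obtain ⟨h1, h2⟩ := hcon
    apply hz
    have h3 := h z
    unfold pl at h3
    have h4 : ρ * z + t ∉ X := by
      intro h5
      exact h2 ⟨ρ * z + t, h5, by field_simp; ring⟩
    have h1' : z ∉ X := h1
    rw [if_neg h4, if_neg h1'] at h3
    simpa using h3
  exact ((X.finite_toSet).union ((X.finite_toSet).image _)).subset hsub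

theorem case2 {a b c d : ℂ} (hab : a ≠ b) (hac : a ≠ c) (had : a ≠ d) (hbc : b ≠ c) (hbd : b ≠ d)
    (hcd : c ≠ d) {f : ℂ → ℤ} (H : Hyp f {a, b, c, d}) {τ : ℂ} (hτ : τ ≠ 0)
    (hB : Bal f τ) : False := by
  obtain ⟨F, hF, hD⟩ := hB
  set h : ℂ → ℤ := fun z => f z - F z with hh
  have hS : ∀ z, h z ≠ 0 → z ∈ hD.toFinset := by
    intro z hz
    rw [Set.Finite.mem_toFinset]
    intro h1
    exact hz (by simp [hh, h1])
  have hP : ∀ X : Finset ℂ, X ⊆ {a, b, c, d} → PPu (pl h X) = 0 := by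
    intro X hX
    obtain ⟨ρ, t, hρ, hne, hinv⟩ := H X hX
    have hρ0 : ρ ≠ 0 := by rintro rfl; simp at hρ
    have hFi := F_inv hτ hF hD hρ0 (alm_of_inv hρ0 hinv)
    have hS' : ∀ z, pl h X z ≠ 0 → z ∈ hD.toFinset ∪ X := by
      intro z hz
      rw [mem_union]
      by_contra hcon
      push Not at hcon
      apply hz
      unfold pl
      rw [if_neg hcon.2]
      by_contra h2
      exact hcon.1 (hS z (by simpa using h2))
    refine PP_zero hS' hρ hne ?_
    intro z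
    have h1 := hinv z
    have h2 := hFi z
    unfold pl at h1 ⊢
    simp only [hh]
    linarith
  refine four hab hac had hbc hbd hcd ?_ ?_ ?_ ?_
  · exact tri hS hab hac hbc fun X hX => hP X (hX.trans (by intro w; simp; tauto))
  · exact tri hS hab had hbd fun X hX => hP X (hX.trans (by intro w; simp; tauto))
  · exact tri hS hac had hcd fun X hX => hP X (hX.trans (by intro w; simp; tauto))
  · exact tri hS hbc hbd hcd fun X hX => hP X (hX.trans (by intro w; simp; tauto))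

end Pool.Agent.V11293.EXT
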