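import Mathlib

namespace Pool.Agent.V11293.EXT

open Filter

/-- `f` agrees off a finite set with a `τ`-periodic function. -/
def Bal (f : ℂ → ℤ) (τ : ℂ) : Prop :=
  ∃ F : ℂ → ℤ, (∀ z, F (z + τ) = F z) ∧ {z | f z ≠ F z}.Finite

theorem ev {E : Set ℂ} (hE : E.Finite) {τ : ℂ} (hτ : τ ≠ 0) (z : ℂ) :
    ∀ᶠ n : ℕ in atTop, z + n * τ ∉ E := by
  have hinj : Function.Injective (fun n : ℕ => z + (n : ℂ) * τ) := by
    intro a b hab
    have h1 : (a : ℂ) * τ = b * τ := by simpa using hab
    have h2 := mul_right_cancel₀ hτ h1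
    exact_mod_cast h2
  have h := hinj.tendsto_cofinite
  rw [Nat.cofinite_eq_atTop] at h
  exact h.eventually hE.eventually_cofinite_notMem

theorem bal_of {f : ℂ → ℤ} {τ : ℂ} (hτ : τ ≠ 0) (hT : {z | f (z + τ) ≠ f z}.Finite)
    (hb : ∀ z, ∀ᶠ n : ℕ in atTop, f (z + n * τ) = f (z - n * τ)) : Bal f τ := by
  have hF : ∀ z, ∃ v, ∀ᶠ n : ℕ in atTop, f (z + n * τ) = v := by
    intro z
    obtain ⟨K, hK⟩ := eventually_atTop.1 (ev hT hτ z)
    refine ⟨f (z + K * τ), eventually_atTop.2 ⟨K, ?_⟩⟩
    intro n hn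
    induction n, hn using Nat.le_induction with
    | base => rfl
    | succ n hn ih =>
      have h1 := hK n hn
      simp only [Set.mem_setOf_eq, not_not] at h1
      rw [← ih, ← h1]
      congr 1
      push_cast
      ring
  choose F hF using hF
  refine ⟨F, ?_, ?_⟩
  · intro z
    have h1 := hF (z + τ)
    have h2 : ∀ᶠ n : ℕ in atTop, f (z + ((n + 1 : ℕ) : ℂ) * τ) = F z :=
      (tendsto_add_atTop_nat 1).eventually (hF z)
    obtain ⟨n, h3, h4⟩ := (h1.and h2).exists
    rw [← h3, ← h4]
    congr 1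
    push_cast
    ring
  · obtain ⟨R, hR⟩ := hT.isBounded.exists_norm_le
    have hτ' : 0 < ‖τ‖ := norm_pos_iff.2 hτ
    have hfin : ((fun p : ℂ × ℕ => p.1 - p.2 * τ) ''
        ({z | f (z + τ) ≠ f z} ×ˢ {n : ℕ | n ≤ ⌈2 * R / ‖τ‖⌉₊})).Finite :=
      (hT.prod (Set.finite_le_nat _)).image _
    refine hfin.subset ?_
    intro z hz
    simp only [Set.mem_setOf_eq] at hz
    have ha : ∃ n : ℕ, f (z + n * τ + τ) ≠ f (z + n * τ) := by
      by_contra hcon
      push Not at hcon
      have h1 : ∀ n : ℕ, f (z + n * τ) = f z := by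
        intro n
        induction n with
        | zero => simp
        | succ n ih =>
          rw [← ih, ← hcon n]
          congr 1
          push_cast
          ring
      obtain ⟨n, hn⟩ := (hF z).exists
      exact hz (by rw [← hn, h1])
    have hb' : ∃ n : ℕ, f (z - (n + 1) * τ + τ) ≠ f (z - (n + 1) * τ) := by
      by_contra hcon
      push Not at hcon
      have h1 : ∀ n : ℕ, f (z - n * τ) = f z := by
        intro n
        induction n with
        | zero => simp
        | succ n ih =>
          rw [← ih]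
          have := hcon n
          rw [show z - (n + 1 : ℂ) * τ + τ = z - n * τ by ring] at this
          rw [this]
          congr 1
          push_cast
          ring
      obtain ⟨n, hn, hn2⟩ := ((hF z).and (hb z)).exists
      exact hz (by rw [← hn, hn2, h1])
    obtain ⟨n, hn⟩ := ha
    obtain ⟨m, hm⟩ := hb'
    refine ⟨(z + n * τ, n), ⟨hn, ?_⟩, by simp⟩
    have h1 := hR _ hn
    have h2 := hR _ hm
    have h3 : ‖((n + m + 1 : ℕ) : ℂ) * τ‖ ≤ 2 * R := by
      have : ((n + m + 1 : ℕ) : ℂ) * τ = (z + n * τ) - (z - (m + 1) * τ) := by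
        push_cast; ring
      rw [this]
      calc _ ≤ ‖z + n * τ‖ + ‖z - (m + 1) * τ‖ := norm_sub_le _ _
        _ ≤ 2 * R := by linarith
    rw [norm_mul, Complex.norm_natCast] at h3
    have h4 : ((n + m + 1 : ℕ) : ℝ) ≤ 2 * R / ‖τ‖ := by
      rw [le_div_iff₀ hτ']; exact h3
    have h5 : (n : ℝ) ≤ 2 * R / ‖τ‖ := by
      refine le_trans ?_ h4
      push_cast
      have : (0 : ℝ) ≤ m := Nat.cast_nonneg m
      linarith
    have h6 : (n : ℝ) ≤ (⌈2 * R / ‖τ‖⌉₊ : ℝ) := h5.trans (Nat.le_ceil _)
    exact_mod_cast h6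

theorem dep {f : ℂ → ℤ} (NB : ∀ τ, τ ≠ 0 → ¬ Bal f τ) {τ τ' : ℂ} (hτ : τ ≠ 0)
    (hT : {z | f (z + τ) ≠ f z}.Finite) (hT' : {z | f (z + τ') ≠ f z}.Finite) :
    ∃ m n : ℤ, m ≠ 0 ∧ (m : ℂ) * τ' = n * τ := by
  have h0 : ¬ ∀ z, ∀ᶠ n : ℕ in atTop, f (z + n * τ) = f (z - n * τ) :=
    fun h => NB τ hτ (bal_of hτ hT h)
  push Not at h0
  obtain ⟨z, hz⟩ := h0
  have hmul : ∀ m : ℕ, {u | f (u + m * τ') ≠ f u}.Finite := by
    intro m
    induction m with
    | zero => simp
    | succ m ih =>
      have h1 : {u | f (u + ((m + 1 : ℕ) : ℂ) * τ') ≠ f u} ⊆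
          {u | f (u + m * τ') ≠ f u} ∪ (fun v => v - m * τ') '' {z | f (z + τ') ≠ f z} := by
        intro u hu
        simp only [Set.mem_setOf_eq] at hu
        by_cases h2 : f (u + m * τ') = f u
        · right
          refine ⟨u + m * τ', ?_, by ring⟩
          simp only [Set.mem_setOf_eq]
          intro h3
          apply hu
          rw [← h2, ← h3]
          congr 1
          push_cast; ring
        · left; exact h2
      exact (ih.union (hT'.image _)).subset h1
  have hex : ∀ m : ℕ, ∃ j : ℤ, z + m * τ' + j * τ ∈ {z | f (z + τ) ≠ f z} := by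
    intro m
    by_contra hcon
    push Not at hcon
    simp only [Set.mem_setOf_eq, not_not] at hcon
    apply hz
    have hp : ∀ n : ℕ, f (z + m * τ' + n * τ) = f (z + m * τ') := by
      intro n
      induction n with
      | zero => simp
      | succ n ih =>
        have := hcon n
        rw [← ih]
        push_cast at this
        rw [← this]
        congr 1
        push_cast; ring
    have hn : ∀ n : ℕ, f (z + m * τ' - n * τ) = f (z + m * τ') := by
      intro n
      induction n with
      | zero => simp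
      | succ n ih =>
        have := hcon (-(n + 1 : ℤ))
        rw [← ih]
        push_cast at this
        rw [show z + m * τ' + (-((n : ℂ) + 1)) * τ + τ = z + m * τ' - n * τ by ring] at this
        rw [this]
        congr 1
        push_cast; ring
    have e1 := ev (hmul m) hτ z
    have e2 := ev (hmul m) (neg_ne_zero.2 hτ) z
    filter_upwards [e1, e2] with n h1 h2
    simp only [Set.mem_setOf_eq, not_not] at h1 h2
    have h3 : f (z - n * τ) = f (z + n * -τ) := by congr 1; ring
    rw [h3, ← h1, ← h2]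
    have h4 : f (z + n * τ + m * τ') = f (z + m * τ') := by
      rw [← hp n]; congr 1; ring
    have h5 : f (z + n * -τ + m * τ') = f (z + m * τ') := by
      rw [← hn n]; congr 1; ring
    rw [h4, h5]
    exact fun h => h rfl
  choose j hj using hex
  haveI : Finite {z | f (z + τ) ≠ f z} := hT
  obtain ⟨m, m', hne, heq⟩ := Finite.exists_ne_map_eq_of_infinite
    (fun m : ℕ => (⟨z + m * τ' + j m * τ, hj m⟩ : {z | f (z + τ) ≠ f z}))
  simp only [Subtype.mk.injEq] at heq
  refine ⟨(m : ℤ) - m', j m' - j m, ?_, ?_⟩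
  · intro h
    apply hne
    have : (m : ℤ) = m' := by linarith
    exact_mod_cast this
  · push_cast
    linear_combination heq

end Pool.Agent.V11293.EXT
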