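import Pool.Agent.V11293.EXT.Core

namespace Pool.Agent.V11293.EXT

open Finset ComplexConjugate Filter

theorem lemma1 {f : ℂ → ℤ} {w ρ t σ s : ℂ} (h0 : ∀ z, f (ρ * z + t) = f z)
    (h1 : ∀ z, pl f {w} (σ * z + s) = pl f {w} z) (hw1 : ρ * w + t ≠ w) (hw2 : σ * w + s ≠ w)
    (hc : ρ * s + t = σ * t + s) : False := by
  have e1 := h1 w
  have e2 := h1 (ρ * w + t)
  have e3 := h0 (σ * w + s)
  have e4 := h0 w
  have e5 : ρ * (σ * w + s) + t = σ * (ρ * w + t) + s := by linear_combination hc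
  rw [e5] at e3
  unfold pl at e1 e2
  simp only [mem_singleton] at e1 e2
  rw [if_neg hw2] at e1
  rw [if_neg hw1] at e2
  simp only [if_true] at e1
  split_ifs at e2 <;> omega

theorem alm_conj {f : ℂ → ℤ} {κ r δ : ℂ} (hκ : κ ≠ 0) (hA : {z | f (κ * z + r) ≠ f z}.Finite)
    (hT : {z | f (z + δ) ≠ f z}.Finite) : {u | f (u + κ * δ) ≠ f u}.Finite := by
  have hsub : {u | f (u + κ * δ) ≠ f u} ⊆ (fun z => κ * z + r) ''
      ({z | f (κ * z + r) ≠ f z} ∪ ({z | f (z + δ) ≠ f z} ∪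
        (fun z => z - δ) '' {z | f (κ * z + r) ≠ f z})) := by
    intro u hu
    obtain ⟨z, rfl⟩ : ∃ z, κ * z + r = u := ⟨κ⁻¹ * (u - r), by field_simp; ring⟩
    refine ⟨z, ?_, rfl⟩
    by_contra hcon
    simp only [Set.mem_union, not_or] at hcon
    obtain ⟨h1, h2, h3⟩ := hcon
    simp only [Set.mem_setOf_eq, not_not] at h1 h2
    apply hu
    have h4 : f (κ * (z + δ) + r) = f (z + δ) := by
      by_contra h5
      exact h3 ⟨z + δ, h5, by ring⟩
    rw [h1, ← h2, ← h4]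
    congr 1; ring
  exact ((hA.union (hT.union (hA.image _))).image _).subset hsub

theorem pm_one {κ δ : ℂ} (hδ : δ ≠ 0) (hκ : ‖κ‖ = 1) {m n : ℤ} (hm : m ≠ 0)
    (h : (m : ℂ) * (κ * δ) = n * δ) : κ = 1 ∨ κ = -1 := by
  have h1 : (m : ℂ) * κ = n := by
    apply mul_right_cancel₀ hδ
    linear_combination h
  have h2 : ‖(m : ℂ) * κ‖ = ‖(n : ℂ)‖ := by rw [h1]
  rw [norm_mul, hκ, mul_one, Complex.norm_intCast, Complex.norm_intCast] at h2
  have hm' : (m : ℂ) ≠ 0 := by exact_mod_cast hm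
  rcases abs_eq_abs.1 h2 with h3 | h3
  · left
    have h4 : m = n := by exact_mod_cast h3
    rw [← h4] at h1
    apply mul_left_cancel₀ hm'
    rw [h1, mul_one]
  · right
    have h4 : m = -n := by exact_mod_cast h3
    have h5 : (n : ℂ) = -m := by rw [h4]; push_cast; ring
    rw [h5] at h1
    apply mul_left_cancel₀ hm'
    rw [h1]; ring

theorem point {f : ℂ → ℤ} (NB : ∀ τ, τ ≠ 0 → ¬ Bal f τ) {ρ t : ℂ} (hρ : ‖ρ‖ = 1) (hρ1 : ρ ≠ 1)
    (h0 : ∀ z, f (ρ * z + t) = f z) {w σ s : ℂ} (hw : ρ * w + t ≠ w) (hσ : ‖σ‖ = 1)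
    (hne : ¬ (σ = 1 ∧ s = 0)) (h1 : ∀ z, pl f {w} (σ * z + s) = pl f {w} z) :
    ∃ tw aw, tw ≠ 0 ∧ J f tw aw w ∧ {z | f (z + tw) ≠ f z}.Finite := by
  have hρ0 : ρ ≠ 0 := by rintro rfl; simp at hρ
  have hσ0 : σ ≠ 0 := by rintro rfl; simp at hσ
  have hσ1 : σ ≠ 1 := by
    intro h
    have hs : s ≠ 0 := fun hs => hne ⟨h, hs⟩
    apply NB s hs
    refine ⟨pl f {w}, ?_, ?_⟩
    · intro z
      have := h1 z
      rw [h, one_mul] at this
      exact this
    · refine (Set.finite_singleton w).subset ?_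
      intro z hz
      by_contra h2
      apply hz
      unfold pl
      rw [if_neg (by simpa using h2)]
      simp
  have A0 : {z | f (ρ * z + t) ≠ f z}.Finite := by
    have : {z | f (ρ * z + t) ≠ f z} = ∅ := by
      ext z; simp [h0]
    rw [this]; exact Set.finite_empty
  have A1 : {z | f (σ * z + s) ≠ f z}.Finite := alm_of_inv hσ0 h1
  -- commutator
  have hδ : ρ * s + t - (σ * t + s) ≠ 0 := by
    intro h
    have hc : ρ * s + t = σ * t + s := by linear_combination h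
    refine lemma1 h0 h1 hw ?_ hc
    intro h2
    apply hw
    have h3 : (1 - σ) * (ρ * w + t - w) = 0 := by
      linear_combination hc - (ρ - 1) * h2
    have h4 := (mul_eq_zero.1 h3).resolve_left (sub_ne_zero.2 (Ne.symm hσ1))
    linear_combination h4
  have hT : {u | f (u + (ρ * s + t - (σ * t + s))) ≠ f u}.Finite := by
    have hsub : {u | f (u + (ρ * s + t - (σ * t + s))) ≠ f u} ⊆
        (fun z => σ * (ρ * z + t) + s) '' {z | f (σ * z + s) ≠ f z} ∪
        (fun v => σ * v + s) '' {z | f (σ * z + s) ≠ f z} := by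
      intro u hu
      obtain ⟨z, rfl⟩ : ∃ z, σ * (ρ * z + t) + s = u :=
        ⟨ρ⁻¹ * (σ⁻¹ * (u - s) - t), by field_simp; ring⟩
      by_contra hcon
      simp only [Set.mem_union, not_or] at hcon
      obtain ⟨h2, h3⟩ := hcon
      apply hu
      have h4 : f (σ * z + s) = f z := by
        by_contra h5; exact h2 ⟨z, h5, rfl⟩
      have h5 : f (σ * (ρ * z + t) + s) = f (ρ * z + t) := by
        by_contra h6; exact h3 ⟨ρ * z + t, h6, rfl⟩
      rw [h5, h0, ← h4, ← h0 (σ * z + s)]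
      congr 1; ring
    exact ((A1.image _).union (A1.image _)).subset hsub
  have hpm : ∀ κ r, ‖κ‖ = 1 → {z | f (κ * z + r) ≠ f z}.Finite → κ = 1 ∨ κ = -1 := by
    intro κ r hκ hA
    have hκ0 : κ ≠ 0 := by rintro rfl; simp at hκ
    obtain ⟨m, n, hm, hmn⟩ := dep NB hδ hT (alm_conj hκ0 hA hT)
    exact pm_one hδ hκ hm hmn
  have hρm : ρ = -1 := (hpm ρ t hρ A0).resolve_left hρ1
  have hσm : σ = -1 := (hpm σ s hσ A1).resolve_left hσ1
  subst hρm hσm
  have hJ : J f (s - t) (s - w) w := by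
    intro z
    have e1 := h1 z
    have e2 := h0 (-1 * z + s)
    unfold pl at e1
    simp only [mem_singleton] at e1
    have e3 : (-1 * (-1 * z + s) + t) = z - (s - t) := by ring
    rw [e3] at e2
    have e4 : (-1 * z + s = w) ↔ (z = s - w) := by
      constructor
      · intro h; rw [← h]; ring
      · intro h; rw [h]; ring
    simp only [e4] at e1
    rw [e2]
    linarith
  refine ⟨s - t, s - w, ?_, hJ, ?_⟩
  · intro h
    have e := hJ w
    rw [h, sub_zero, sub_self] at e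
    simp only [if_true] at e
    by_cases h2 : w = s - w
    · apply hw
      have : s = t := by linear_combination h
      rw [← this]
      linear_combination -h2
    · rw [if_neg h2] at e
      norm_num at e
  · refine ((Set.finite_singleton (s - w - (s - t))).union
      (Set.finite_singleton (w - (s - t)))).subset ?_
    intro z hz
    by_contra hcon
    simp only [Set.mem_union, Set.mem_singleton_iff, not_or] at hcon
    apply hz
    have e := hJ (z + (s - t))
    rw [add_sub_cancel_right, if_neg, if_neg] at e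
    · linarith
    · intro h; exact hcon.2 (by rw [← h]; ring)
    · intro h; exact hcon.1 (by rw [← h]; ring)

theorem core {a b c d : ℂ} (hab : a ≠ b) (hac : a ≠ c) (had : a ≠ d) (hbc : b ≠ c) (hbd : b ≠ d)
    (hcd : c ≠ d) {f : ℂ → ℤ} (H : Hyp f {a, b, c, d}) : False := by
  by_cases hB : ∃ τ, τ ≠ 0 ∧ Bal f τ
  · obtain ⟨τ, hτ, hB⟩ := hB
    exact case2 hab hac had hbc hbd hcd H hτ hB
  push Not at hB
  obtain ⟨ρ, t, hρ, hne, h0'⟩ := H ∅ (by simp)
  have h0 : ∀ z, f (ρ * z + t) = f z := by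
    intro z
    have := h0' z
    unfold pl at this
    simpa using this
  have hρ1 : ρ ≠ 1 := by
    intro h
    have ht : t ≠ 0 := fun ht => hne ⟨h, ht⟩
    apply hB t ht
    refine ⟨f, ?_, by simp⟩
    intro z
    have := h0 z
    rwa [h, one_mul] at this
  have fix : ∀ w w' : ℂ, ρ * w + t = w → ρ * w' + t = w' → w = w' := by
    intro w w' h1 h2
    have h3 : (1 - ρ) * (w - w') = 0 := by linear_combination h2 - h1
    have h4 := (mul_eq_zero.1 h3).resolve_left (sub_ne_zero.2 (Ne.symm hρ1))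
    linear_combination h4
  have hpt : ∀ w ∈ ({a, b, c, d} : Finset ℂ), ρ * w + t ≠ w →
      ∃ tw aw, tw ≠ 0 ∧ J f tw aw w ∧ {z | f (z + tw) ≠ f z}.Finite := by
    intro w hw hwp
    obtain ⟨σ, s, hσ, hne', h1⟩ := H {w} (by simpa using hw)
    exact point hB hρ hρ1 h0 hwp hσ hne' h1
  have three : ∀ w₁ ∈ ({a, b, c, d} : Finset ℂ), ∀ w₂ ∈ ({a, b, c, d} : Finset ℂ),
      ∀ w₃ ∈ ({a, b, c, d} : Finset ℂ), ρ * w₁ + t ≠ w₁ → ρ * w₂ + t ≠ w₂ → ρ * w₃ + t ≠ w₃ →
      w₁ ≠ w₂ → w₂ ≠ w₃ → w₁ ≠ w₃ → False := by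
    intro w₁ m1 w₂ m2 w₃ m3 p1 p2 p3 n12 n23 n13
    obtain ⟨t₁, a₁, ht1, J1, T1⟩ := hpt w₁ m1 p1
    obtain ⟨t₂, a₂, ht2, J2, T2⟩ := hpt w₂ m2 p2
    obtain ⟨t₃, a₃, ht3, J3, T3⟩ := hpt w₃ m3 p3
    obtain ⟨m, n, hm, hmn⟩ := dep hB ht1 T1 T2
    obtain ⟨m', n', hm', hmn'⟩ := dep hB ht2 T2 T3
    rcases J1.three J2 J3 hB ht1 ht2 ht3 hm hmn hm' hmn' with h | h | h
    · exact n12 h
    · exact n23 h
    · exact n13 h
  by_cases pa : ρ * a + t = a
  · refine three b (by simp) c (by simp) d (by simp) ?_ ?_ ?_ hbc hcd hbd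
    · intro h; exact hab (fix _ _ pa h)
    · intro h; exact hac (fix _ _ pa h)
    · intro h; exact had (fix _ _ pa h)
  by_cases pb : ρ * b + t = b
  · refine three a (by simp) c (by simp) d (by simp) pa ?_ ?_ hac hcd had
    · intro h; exact hbc (fix _ _ pb h)
    · intro h; exact hbd (fix _ _ pb h)
  by_cases pc : ρ * c + t = c
  · refine three a (by simp) b (by simp) d (by simp) pa pb ?_ hab hbd had
    intro h; exact hcd (fix _ _ pc h)
  exact three a (by simp) b (by simp) c (by simp) pa pb pc hab hbc hac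

end Pool.Agent.V11293.EXT
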