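import Pool.Agent.V11293.EXT.Ends

namespace Pool.Agent.V11293.EXT

open Finset ComplexConjugate

/-- A triple whose members satisfy: equilateral, or one is the midpoint of the other two. -/
def Cls (a b c : ℂ) : Prop :=
  a ^ 2 + b ^ 2 + c ^ 2 - a * b - b * c - c * a = 0 ∨ a + b = 2 * c ∨ b + c = 2 * a ∨ a + c = 2 * b

theorem Cls.shift {a b c : ℂ} (h : Cls a b c) (v : ℂ) : Cls (a - v) (b - v) (c - v) := by
  unfold Cls at *
  rcases h with h | h | h | h
  · left; linear_combination h
  · right; left; linear_combination h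
  · right; right; left; linear_combination h
  · right; right; right; linear_combination h

theorem Cls.swap {a b c : ℂ} (h : Cls a b c) : Cls b a c := by
  unfold Cls at *
  rcases h with h | h | h | h
  · left; linear_combination h
  · right; left; linear_combination h
  · right; right; right; linear_combination h
  · right; right; left; linear_combination h

theorem Cls.rot {a b c : ℂ} (h : Cls a b c) : Cls b c a := by
  unfold Cls at *
  rcases h with h | h | h | h
  · left; linear_combination h
  · right; right; right; linear_combination h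
  · right; left; linear_combination h
  · right; right; left; linear_combination h

theorem caseA (x y d : ℂ) (hx : x ≠ 0) (hy : y ≠ 0) (hxy : x ≠ y) (hd : d ≠ 0) (hdx : d ≠ x)
    (hdy : d ≠ y) (h : x ^ 2 - x * y + y ^ 2 = 0) (h1 : Cls 0 x d) (h2 : Cls x y d) : False := by
  unfold Cls at h1 h2
  rcases h1 with h1 | h1 | h1 | h1 <;> rcases h2 with h2 | h2 | h2 | h2 <;> grind

theorem caseB (x d : ℂ) (hx : x ≠ 0) (hd : d ≠ 0) (hdx : d ≠ x) (hdy : d ≠ -x)
    (h1 : Cls 0 x d) (h2 : Cls 0 (-x) d) : False := by
  unfold Cls at h1 h2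
  rcases h1 with h1 | h1 | h1 | h1 <;> rcases h2 with h2 | h2 | h2 | h2 <;> grind

theorem caseB' {a b c d : ℂ} (hb : a + c = 2 * b) (hab : a ≠ b) (had : a ≠ d) (hbd : b ≠ d)
    (hcd : c ≠ d) (h1 : Cls b a d) (h2 : Cls b c d) : False := by
  have e : c - b = -(a - b) := by linear_combination hb
  refine caseB (a - b) (d - b) (sub_ne_zero.2 hab) (sub_ne_zero.2 hbd.symm) ?_ ?_ ?_ ?_
  · intro h; exact had (by linear_combination -h)
  · intro h; rw [← e] at h; exact hcd (by linear_combination -h)
  · have := h1.shift b; rwa [sub_self] at this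
  · have := h2.shift b; rwa [sub_self, e] at this

/-- No four distinct points all of whose triples are equilateral or contain their midpoint. -/
theorem four {a b c d : ℂ} (hab : a ≠ b) (hac : a ≠ c) (had : a ≠ d) (hbc : b ≠ c) (hbd : b ≠ d)
    (hcd : c ≠ d) (h1 : Cls a b c) (h2 : Cls a b d) (h3 : Cls a c d) (h4 : Cls b c d) : False := by
  rcases h1 with h | h | h | h
  · refine caseA (b - a) (c - a) (d - a) (sub_ne_zero.2 hab.symm) (sub_ne_zero.2 hac.symm) ?_
      (sub_ne_zero.2 had.symm) ?_ ?_ ?_ ?_ (h4.shift a)
    · intro e; exact hbc (by linear_combination e)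
    · intro e; exact hbd (by linear_combination -e)
    · intro e; exact hcd (by linear_combination -e)
    · linear_combination h
    · have := h2.shift a; rwa [sub_self] at this
  · -- c is the midpoint of a, b
    exact caseB' (a := a) (b := c) (c := b) h hac had hcd hbd h3.swap h4.swap
  · exact caseB' (a := b) (b := a) (c := c) h hab.symm hbd had hcd h2 h3
  · exact caseB' (a := a) (b := b) (c := c) h hab had hbd hcd h2.swap h4

/-- The cubic expression in three points. -/
theorem triple {a b c : ℂ}
    (hT : 9 * (a ^ 2 * conj a + b ^ 2 * conj b + c ^ 2 * conj c)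
      - 3 * (conj a + conj b + conj c) * (a ^ 2 + b ^ 2 + c ^ 2)
      - 6 * (a + b + c) * (a * conj a + b * conj b + c * conj c)
      + 2 * (a + b + c) ^ 2 * (conj a + conj b + conj c) = 0) : Cls a b c := by
  set p : ℂ := 2 * a - b - c with hp
  set q : ℂ := 2 * b - a - c with hq
  set α : ℂ := p * conj p - (p + q) * (conj p + conj q) with hα
  set β : ℂ := q * conj q - (p + q) * (conj p + conj q) with hβ
  have hcp : conj p = 2 * conj a - conj b - conj c := by simp [hp, map_ofNat]
  have hcq : conj q = 2 * conj b - conj a - conj c := by simp [hq, map_ofNat]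
  have E1 : α * p + β * q = 0 := by
    rw [hα, hβ, hcp, hcq, hp, hq]
    linear_combination 3 * hT
  have hαr : conj α = α := by simp [hα]; ring
  have hβr : conj β = β := by simp [hβ]; ring
  have E2 : α * conj p + β * conj q = 0 := by
    have := congrArg conj E1
    simpa [hαr, hβr] using this
  have F1 : α * (p * conj q - conj p * q) = 0 := by linear_combination conj q * E1 - q * E2
  have F2 : β * (p * conj q - conj p * q) = 0 := by linear_combination -conj p * E1 + p * E2
  by_cases hpq : p * conj q - conj p * q = 0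
  · -- collinear
    have G : p * conj q * (p + q) = 0 := by
      have : 3 * (p * conj q * (p + q)) = 0 := by
        have h := E1
        rw [hα, hβ] at h
        linear_combination -h + (2 * p + q) * hpq
      simpa using this
    unfold Cls
    rcases mul_eq_zero.1 G with G | G
    · rcases mul_eq_zero.1 G with G | G
      · right; right; left; linear_combination -G
      · have : q = 0 := by simpa using G
        right; right; right; linear_combination -this
    · right; left; linear_combination G
  · have hα0 : α = 0 := (mul_eq_zero.1 F1).resolve_right hpq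
    have hβ0 : β = 0 := (mul_eq_zero.1 F2).resolve_right hpq
    rw [hα] at hα0
    rw [hβ] at hβ0
    have G : (p ^ 2 + p * q + q ^ 2) * (conj p) ^ 2 = 0 := by
      linear_combination (p * conj p) * (hα0 - hβ0) - (q * conj p) * hβ0
    have G' : p ^ 2 + p * q + q ^ 2 = 0 := by
      rcases mul_eq_zero.1 G with G | G
      · exact G
      · have hp0 : p = 0 := by simpa using G
        rw [hp0] at hα0 ⊢
        have : q * conj q = 0 := by
          simp only [map_zero] at hα0
          linear_combination -hα0
        have hq0 : q = 0 := by simpa using this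
        rw [hq0]; ring
    left
    linear_combination (1 / 3) * G'

/-- The pairing of `u` with a test function. -/
noncomputable def mom (u : ℂ → ℤ) (φ : ℂ → ℂ) : ℂ := ∑ᶠ z, (u z : ℂ) * φ z

theorem mom_eq {u : ℂ → ℤ} {S : Finset ℂ} (hS : ∀ z, u z ≠ 0 → z ∈ S) (φ : ℂ → ℂ) :
    mom u φ = ∑ z ∈ S, (u z : ℂ) * φ z := by
  apply finsum_eq_sum_of_support_subset
  intro z hz
  simp only [Function.mem_support] at hz
  apply hS
  intro h
  apply hz
  rw [h]; simp

theorem mom_inv {u : ℂ → ℤ} {ρ t : ℂ} (hρ : ρ ≠ 0) (hu : ∀ z, u (ρ * z + t) = u z)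
    (φ : ℂ → ℂ) : mom u φ = mom u (fun z => φ (ρ * z + t)) := by
  unfold mom
  let e : ℂ ≃ ℂ :=
    { toFun := fun z => ρ * z + t
      invFun := fun z => ρ⁻¹ * (z - t)
      left_inv := by intro z; field_simp; ring
      right_inv := by intro z; field_simp; ring }
  have h := finsum_comp_equiv e (f := fun z => (u z : ℂ) * φ z)
  rw [← h]
  apply finsum_congr
  intro z
  show (u (ρ * z + t) : ℂ) * φ (ρ * z + t) = _
  rw [hu]

theorem mom_smul {u : ℂ → ℤ} {S : Finset ℂ} (hS : ∀ z, u z ≠ 0 → z ∈ S) (c : ℂ) (φ : ℂ → ℂ) :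
    mom u (fun z => c * φ z) = c * mom u φ := by
  rw [mom_eq hS, mom_eq hS, mul_sum]
  exact sum_congr rfl fun z _ => by ring

theorem mom_eigen {u : ℂ → ℤ} {S : Finset ℂ} (hS : ∀ z, u z ≠ 0 → z ∈ S) {ρ t : ℂ} (hρ : ρ ≠ 0)
    (hu : ∀ z, u (ρ * z + t) = u z) {c : ℂ} (hc : c ≠ 1) {φ : ℂ → ℂ}
    (hφ : ∀ z, φ (ρ * z + t) = c * φ z) : mom u φ = 0 := by
  have h := mom_inv hρ hu φ
  simp only [hφ] at h
  rw [mom_smul hS] at h
  have h2 : (1 - c) * mom u φ = 0 := by linear_combination h
  exact (mul_eq_zero.1 h2).resolve_left (sub_ne_zero.2 hc.symm)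

/-- The cubic polynomial in the moments. -/
noncomputable def PP (N A A' B C D : ℂ) : ℂ :=
  N ^ 2 * D - N * A' * B - 2 * N * A * C + 2 * A ^ 2 * A'

theorem PP_zero {u : ℂ → ℤ} {S : Finset ℂ} (hS : ∀ z, u z ≠ 0 → z ∈ S) {ρ t : ℂ}
    (hρ : ‖ρ‖ = 1) (hne : ¬ (ρ = 1 ∧ t = 0)) (hu : ∀ z, u (ρ * z + t) = u z) :
    PP (mom u fun _ => 1) (mom u fun z => z) (mom u fun z => conj z) (mom u fun z => z ^ 2)
      (mom u fun z => z * conj z) (mom u fun z => z ^ 2 * conj z) = 0 := by
  have hρ0 : ρ ≠ 0 := by rintro rfl; simp at hρ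
  have hrr : ρ * conj ρ = 1 := by
    rw [Complex.mul_conj, Complex.normSq_eq_norm_sq, hρ]; simp
  by_cases h1 : ρ = 1
  · subst h1
    have ht : t ≠ 0 := fun h => hne ⟨rfl, h⟩
    have e1 := mom_inv hρ0 hu (fun z => z)
    have e2 := mom_inv hρ0 hu (fun z => z ^ 2)
    have hN : mom u (fun _ => 1) = 0 := by
      have : t * mom u (fun _ => 1) = 0 := by
        have e3 : mom u (fun z => 1 * z + t) = mom u (fun z => z) + t * mom u (fun _ => 1) := by
          rw [mom_eq hS, mom_eq hS, mom_eq hS, mul_sum, ← sum_add_distrib]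
          exact sum_congr rfl fun z _ => by ring
        rw [e3] at e1
        linear_combination -e1
      exact (mul_eq_zero.1 this).resolve_left ht
    have hA : mom u (fun z => z) = 0 := by
      have : t * mom u (fun z => z) = 0 := by
        have e3 : mom u (fun z => (1 * z + t) ^ 2) = mom u (fun z => z ^ 2)
            + 2 * t * mom u (fun z => z) + t ^ 2 * mom u (fun _ => 1) := by
          rw [mom_eq hS, mom_eq hS, mom_eq hS, mom_eq hS, mul_sum, mul_sum, ← sum_add_distrib,
            ← sum_add_distrib]
          exact sum_congr rfl fun z _ => by ring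
        rw [e3, hN] at e2
        linear_combination -e2 / 2
      exact (mul_eq_zero.1 this).resolve_left ht
    unfold PP
    rw [hN, hA]; ring
  · have h1' : 1 - ρ ≠ 0 := sub_ne_zero.2 (Ne.symm h1)
    set p : ℂ := t / (1 - ρ) with hp
    have ht : t = (1 - ρ) * p := by rw [hp]; field_simp
    have hcr : conj ρ ≠ 1 := by
      intro h; apply h1
      have := congrArg conj h
      simpa using this
    have f1 : mom u (fun z => z - p) = 0 :=
      mom_eigen hS hρ0 hu h1 (by intro z; rw [ht]; ring)
    have f2 : mom u (fun z => conj z - conj p) = 0 :=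
      mom_eigen hS hρ0 hu hcr (by
        intro z; rw [ht]; simp only [map_add, map_mul, map_sub, map_one]; ring)
    have f3 : mom u (fun z => (z - p) ^ 2 * (conj z - conj p)) = 0 :=
      mom_eigen hS hρ0 hu h1 (by
        intro z; rw [ht]; simp only [map_add, map_mul, map_sub, map_one]
        linear_combination ρ * (z - p) ^ 2 * (conj z - conj p) * hrr)
    have g1 : mom u (fun z => z - p) = mom u (fun z => z) - p * mom u (fun _ => 1) := by
      rw [mom_eq hS, mom_eq hS, mom_eq hS, mul_sum, ← sum_sub_distrib]
      exact sum_congr rfl fun z _ => by ring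
    have g2 : mom u (fun z => conj z - conj p)
        = mom u (fun z => conj z) - conj p * mom u (fun _ => 1) := by
      rw [mom_eq hS, mom_eq hS, mom_eq hS, mul_sum, ← sum_sub_distrib]
      exact sum_congr rfl fun z _ => by ring
    have g3 : mom u (fun z => (z - p) ^ 2 * (conj z - conj p))
        = mom u (fun z => z ^ 2 * conj z) - conj p * mom u (fun z => z ^ 2)
          - 2 * p * mom u (fun z => z * conj z) + 2 * p * conj p * mom u (fun z => z)
          + p ^ 2 * mom u (fun z => conj z) - p ^ 2 * conj p * mom u (fun _ => 1) := by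
      rw [mom_eq hS, mom_eq hS, mom_eq hS, mom_eq hS, mom_eq hS, mom_eq hS, mom_eq hS,
        mul_sum, mul_sum, mul_sum, mul_sum, mul_sum, ← sum_sub_distrib, ← sum_sub_distrib,
        ← sum_add_distrib, ← sum_add_distrib, ← sum_sub_distrib]
      exact sum_congr rfl fun z _ => by ring
    rw [f1] at g1
    rw [f2] at g2
    rw [f3] at g3
    have hA : mom u (fun z => z) = p * mom u (fun _ => 1) := by linear_combination -g1
    have hA' : mom u (fun z => conj z) = conj p * mom u (fun _ => 1) := by linear_combination -g2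
    unfold PP
    rw [hA, hA'] at g3 ⊢
    linear_combination -(mom u fun _ => 1) ^ 2 * g3

end Pool.Agent.V11293.EXT
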